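import Mathlib

/-!
MP_f351c6: no nontrivial Korovin orbit is paracompact.
-/

namespace Pool.Agent.Results.MP_f351c6_gt.NotParacompact

open Set Topology Cardinal

universe u v

/-- The orbit `G_f` of `f` under the action `(g f)(x) = f (x g)`, as a subset of `G → X`. -/
def orbit {X : Type u} {G : Type v} [CommGroup G] (f : G → X) : Set (G → X) :=
  range fun g : G => fun x : G => f (x * g)

/-- `f` is a Korovin mapping: the orbit projects onto `X^M` for every countable `M ⊆ G`. -/
def IsKorovin {X : Type u} {G : Type v} [CommGroup G] (f : G → X) : Prop :=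
  ∀ M : Set G, M.Countable → M.domRestrict '' orbit f = Set.univ

section

variable {X : Type u} {G : Type v} [CommGroup G] {f : G → X}

theorem IsKorovin.exists_eq (hf : IsKorovin f) {M : Set G} (hM : M.Countable) (y : G → X) :
    ∃ q ∈ orbit f, ∀ x ∈ M, q x = y x := by
  have h : (M.domRestrict y) ∈ M.domRestrict '' orbit f := by rw [hf M hM]; trivial
  obtain ⟨q, hq, hqy⟩ := h
  exact ⟨q, hq, fun x hx => congrFun hqy ⟨x, hx⟩⟩

/-- A basic open set around `z` with finite support inside an open set. -/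
theorem exists_support [TopologicalSpace X] {W : Set (G → X)} (hW : IsOpen W) {z : G → X}
    (hz : z ∈ W) : ∃ S : Finset G, ∀ y : G → X, (∀ x ∈ S, y x = z x) → y ∈ W := by
  obtain ⟨S, O, hO, hOW⟩ := isOpen_pi_iff.mp hW z hz
  exact ⟨S, fun y hy => hOW (fun x hx => by rw [hy x hx]; exact (hO x hx).2)⟩

theorem main [TopologicalSpace X] (hf : IsKorovin f) {V : Set X} (hV : IsOpen V)
    (hne : V.Nonempty) {u : X} (hu : u ∉ V) : ¬ ParacompactSpace (orbit f) := by
  classical
  intro hp
  -- the cover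
  let W : G → Set (orbit f) := fun x => {q | q.1 x ∈ V}
  have hWo : ∀ x, IsOpen (W x) := fun x =>
    hV.preimage ((continuous_apply x).comp continuous_subtype_val)
  have hWc : ⋃ x, W x = Set.univ := by
    rw [eq_univ_iff_forall]
    rintro ⟨q, g, rfl⟩
    obtain ⟨v, hv⟩ := hne
    obtain ⟨_, ⟨g', rfl⟩, hg'⟩ := hf.exists_eq (countable_singleton (1 : G)) (fun _ => v)
    have h1 : f (1 * g') = v := hg' 1 rfl
    rw [mem_iUnion]
    refine ⟨g' * g⁻¹, ?_⟩
    change f (g' * g⁻¹ * g) ∈ V
    rw [inv_mul_cancel_right]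
    rw [one_mul] at h1
    rw [h1]; exact hv
  obtain ⟨t, hto, htc, htl, hts⟩ := precise_refinement W hWo hWc
  -- points of the orbit that are constantly `u` on `E`
  let H : Finset G → Set (orbit f) := fun E => {q | ∀ x ∈ E, q.1 x = u}
  -- the members of the refinement met by `H E`
  let N : Finset G → Set G := fun E => {b | (t b ∩ H E).Nonempty}
  -- supports witnessing infinitely many members
  have key1 : ∀ E : Finset G, ∃ C : Set G, C.Countable ∧
      ((N E).Infinite → ∃ (b : ℕ → G) (h : ℕ → orbit f) (S : ℕ → Finset G),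
        Function.Injective b ∧ (∀ n, h n ∈ H E) ∧ (∀ n, (S n : Set G) ⊆ C) ∧
        ∀ n, ∀ y : orbit f, (∀ x ∈ S n, y.1 x = (h n).1 x) → y ∈ t (b n)) ∧
      ((N E).Finite → ∀ b ∈ N E, b ∈ C) := by
    intro E
    by_cases hE : (N E).Finite
    · refine ⟨N E, hE.countable, fun h => absurd hE h, fun _ b hb => hb⟩
    · have hE' : (N E).Infinite := hE
      let b : ℕ → G := fun n => (hE'.natEmbedding _ n).1
      have hb : Function.Injective b := fun m n h => (hE'.natEmbedding _).injective (Subtype.ext h)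
      have hbN : ∀ n, (t (b n) ∩ H E).Nonempty := fun n => (hE'.natEmbedding _ n).2
      choose h hh using hbN
      have hS : ∀ n, ∃ S : Finset G, ∀ y : orbit f, (∀ x ∈ S, y.1 x = (h n).1 x) → y ∈ t (b n) := by
        intro n
        obtain ⟨W', hW', hW'e⟩ := isOpen_induced_iff.mp (hto (b n))
        have h1 : (h n).1 ∈ W' := by
          have : h n ∈ Subtype.val ⁻¹' W' := by rw [hW'e]; exact (hh n).1
          exact this
        obtain ⟨S, hS⟩ := exists_support hW' h1
        refine ⟨S, fun y hy => ?_⟩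
        have : y ∈ Subtype.val ⁻¹' W' := hS y.1 hy
        rwa [hW'e] at this
      choose S hS using hS
      refine ⟨⋃ n, (S n : Set G), countable_iUnion fun n => (S n).countable_toSet, fun _ =>
        ⟨b, h, S, hb, fun n => (hh n).2, fun n => subset_iUnion (fun n => (S n : Set G)) n, hS⟩,
        fun h => absurd h hE⟩
  choose C hCc hC1 hC2 using key1
  -- close off
  let M' : ℕ → Set G := fun n => Nat.rec ∅ (fun _ M => M ∪ ⋃ E ∈ {E : Finset G | (E : Set G) ⊆ M}, C E) n
  have hM's : ∀ n, M' (n+1) = M' n ∪ ⋃ E ∈ {E : Finset G | (E : Set G) ⊆ M' n}, C E := fun n => rfl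
  have hM'c : ∀ n, (M' n).Countable := by
    intro n
    induction n with
    | zero => exact countable_empty
    | succ n ih =>
      rw [hM's]
      refine ih.union (Countable.biUnion ?_ fun E _ => hCc E)
      refine ((Set.countable_ofPred_finite_subset ih).preimage_of_injOn
        (f := fun E : Finset G => (E : Set G)) Finset.coe_injective.injOn).mono ?_
      intro E hE
      exact And.intro E.finite_toSet hE
  have hM'm : Monotone M' := monotone_nat_of_le_succ fun n => by
    rw [hM's]; exact subset_union_left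
  let M : Set G := ⋃ n, M' n
  have hMc : M.Countable := countable_iUnion hM'c
  have hMC : ∀ E : Finset G, (E : Set G) ⊆ M → C E ⊆ M := by
    intro E hE
    obtain ⟨n, hn⟩ : ∃ n, (E : Set G) ⊆ M' n := by
      exact (hM'm.directed_le).exists_mem_subset_of_finset_subset_biUnion hE
    intro x hx
    refine mem_iUnion.mpr ⟨n+1, ?_⟩
    rw [hM's]
    exact Or.inr (mem_biUnion (show E ∈ {E : Finset G | (E : Set G) ⊆ M' n} from hn) hx)
  obtain ⟨q, hq, hqM⟩ := hf.exists_eq hMc (fun _ => u)
  -- locally finite at `q`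
  obtain ⟨O, hO, hOf⟩ := htl ⟨q, hq⟩
  obtain ⟨O', hO'sub, hO'o, hqO'⟩ := mem_nhds_iff.mp hO
  obtain ⟨W', hW', hW'e⟩ := isOpen_induced_iff.mp hO'o
  have h1 : q ∈ W' := by
    have : (⟨q, hq⟩ : orbit f) ∈ Subtype.val ⁻¹' W' := by rw [hW'e]; exact hqO'
    exact this
  obtain ⟨E, hE⟩ := exists_support hW' h1
  let E₀ : Finset G := E.filter (fun x => x ∈ M)
  have hE₀ : (E₀ : Set G) ⊆ M := fun x hx => (Finset.mem_filter.mp hx).2
  by_cases hfin : (N E₀).Finite
  · -- `q` lies in some member, whose index is in `M`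
    have h2 : (⟨q, hq⟩ : orbit f) ∈ ⋃ b, t b := by rw [htc]; trivial
    obtain ⟨b, hb⟩ := mem_iUnion.mp h2
    have h3 : b ∈ N E₀ := ⟨⟨q, hq⟩, hb, fun x hx => hqM x (hE₀ hx)⟩
    have h4 : b ∈ M := hMC E₀ hE₀ (hC2 E₀ hfin b h3)
    have h5 : q b ∈ V := hts b hb
    rw [hqM _ h4] at h5
    exact hu h5
  · obtain ⟨b, h, S, hb, hh, hSC, hS⟩ := hC1 E₀ hfin
    apply Set.infinite_range_of_injective hb
    refine hOf.subset ?_
    rintro _ ⟨n, rfl⟩
    have hSM : (S n : Set G) ⊆ M := (hSC n).trans (hMC E₀ hE₀)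
    let z : G → X := fun x => if x ∈ M then (h n).1 x else q x
    obtain ⟨y, hy, hyz⟩ := hf.exists_eq ((S n ∪ E).countable_toSet) z
    refine ⟨⟨y, hy⟩, hS n ⟨y, hy⟩ fun x hx => ?_, ?_⟩
    · change y x = _
      rw [hyz x (by simp [hx])]
      simp only [z, if_pos (hSM hx)]
    · apply hO'sub
      rw [← hW'e]
      refine hE y fun x hx => ?_
      rw [hyz x (by simp [hx])]
      by_cases hxM : x ∈ M
      · simp only [z, if_pos hxM]
        rw [hh n x (Finset.mem_filter.mpr ⟨hx, hxM⟩), hqM x hxM]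
      · simp only [z, if_neg hxM]

theorem exists_open [TopologicalSpace X] (h : T2Space (orbit f)) {x y : X} (hxy : x ≠ y)
    (hf : IsKorovin f) : ∃ (V : Set X) (u : X), IsOpen V ∧ V.Nonempty ∧ u ∉ V := by
  by_contra hcon
  push Not at hcon
  have h1 : ∀ V : Set X, IsOpen V → V.Nonempty → V = Set.univ := fun V hV hne =>
    eq_univ_of_forall fun u => hcon V u hV hne
  obtain ⟨p, hp, hpx⟩ := hf.exists_eq (countable_singleton (1 : G)) (fun _ => x)
  obtain ⟨q, hq, hqy⟩ := hf.exists_eq (countable_singleton (1 : G)) (fun _ => y)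
  have hne : (⟨p, hp⟩ : orbit f) ≠ ⟨q, hq⟩ := by
    intro hc
    have h2 : p = q := congrArg Subtype.val hc
    apply hxy
    rw [← hpx 1 rfl, ← hqy 1 rfl, h2]
  obtain ⟨A, B, hA, hB, hpA, hqB, hAB⟩ := t2_separation hne
  obtain ⟨A', hA', hA'e⟩ := isOpen_induced_iff.mp hA
  have h2 : p ∈ A' := by
    have : (⟨p, hp⟩ : orbit f) ∈ Subtype.val ⁻¹' A' := by rw [hA'e]; exact hpA
    exact this
  obtain ⟨S, O, hO, hOW⟩ := isOpen_pi_iff.mp hA' p h2
  have h3 : q ∈ A' := by
    apply hOW
    intro z hz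
    rw [h1 (O z) (hO z hz).1 ⟨_, (hO z hz).2⟩]
    trivial
  have h4 : (⟨q, hq⟩ : orbit f) ∈ A := by rw [← hA'e]; exact h3
  exact disjoint_left.mp hAB h4 hqB

end

/-- No nontrivial Korovin orbit is paracompact: for every topological space `X` with at least two
points, every infinite Abelian group `G` with `|G| ≥ 2^ω` and every Korovin mapping `f : G → X`,
the Korovin orbit `G_f` (with the subspace topology from the product `X^G`) is not a paracompact
(Hausdorff, every open cover has a locally finite open refinement) space. -/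
theorem result (X : Type u) [TopologicalSpace X] (G : Type v) [CommGroup G] [Infinite G]
    (f : G → X) (hX : ∃ x y : X, x ≠ y) (_hG : 2 ^ ℵ₀ ≤ #G) (hf : IsKorovin f) :
    ¬ (T2Space (orbit f) ∧ ParacompactSpace (orbit f)) := by
  rintro ⟨h1, h2⟩
  obtain ⟨x, y, hxy⟩ := hX
  obtain ⟨V, u, hV, hne, hu⟩ := exists_open h1 hxy hf
  exact main hf hV hne hu h2

end Pool.Agent.Results.MP_f351c6_gt.NotParacompact
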